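import Pool.Agent.Lib.MP_85340c_ag.AllP.Section
import Pool.Agent.Lib.MP_85340c_ag.General

/-!
# F-rationality does not satisfy the second theorem of Bertini, in any characteristic

For an affine scheme `X = Spec R` over `k` and `x₁, …, xₙ ∈ R` consider the morphism
`φ = (1 : x₁ : … : xₙ) : X → ℙⁿ`. The pre-image of the hyperplane
`β₀ X₀ + β₁ X₁ + … + βₙ Xₙ = 0` is `Spec R ⧸ (β₀ + β₁ x₁ + … + βₙ xₙ)`.
-/

namespace Pool.Agent.Results.MP_85340c_ag.BertiniFailsAllP

open MP85340c MP85340c.AllP

universe v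

/-- The ideal of the pre-image of the hyperplane `∑ βᵢ Xᵢ = 0` of `ℙⁿ` under the morphism
`(1 : x₁ : … : xₙ) : Spec R → ℙⁿ`: it is generated by `β₀ + ∑ βᵢ xᵢ`. (The `i`-th coordinate
function `xᵢ₊₁` is written `x i`, `i = 0, …, n - 1`.) -/
def hyperplaneIdeal {k R : Type*} [Field k] [CommRing R] [Algebra k R] {n : ℕ} (x : Fin n → R)
    (β : Fin (n + 1) → k) : Ideal R :=
  Ideal.span {algebraMap k R (β 0) + ∑ i : Fin n, algebraMap k R (β i.succ) * x i}

section

variable (k : Type v) [Field k] (p : ℕ) [hpp : Fact p.Prime] [CharP k p]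

/-- the index set of the coordinates -/
abbrev Idx : Type := Fin 3 ⊕ {i : Fin 2 × Fin p // i ≠ i0 hpp.out.pos}

/-- the coordinates `t ^ p`, `x ^ (2p)`, `y ^ (2p)` and the basis elements different from `1` -/
noncomputable def crds : Idx p → Rp k p :=
  Sum.elim ![tR k p, aR k p, cR k p] fun j => basR k p j

theorem isFRational_Rp [IsAlgClosed k] : IsFRational p (Rp k p) := by
  refine isFRational_of_extended_tc (k := k) p ?_
  intro Q P hP c w hc hw
  refine tc_Rp k p Q P c w hc ?_
  obtain ⟨N, hN⟩ := hw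
  exact ⟨N, fun e he => hN e he⟩

theorem adjoin_crds : Algebra.adjoin k (Set.range (crds k p)) = ⊤ := by
  set A := Algebra.adjoin k (Set.range (crds k p)) with hA
  have hx : ∀ i, crds k p i ∈ A := fun i => Algebra.subset_adjoin (Set.mem_range_self i)
  have hb : ∀ b : MvPolynomial (Fin 3) k, algebraMap (MvPolynomial (Fin 3) k) (Rp k p) b ∈ A := by
    intro b
    induction b using MvPolynomial.induction_on with
    | C r =>
      rw [← algebraMap_C]
      exact A.algebraMap_mem r
    | add p q hp hq => rw [map_add]; exact A.add_mem hp hq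
    | mul_X q i hq =>
      rw [map_mul]
      refine A.mul_mem hq ?_
      fin_cases i
      · exact hx (Sum.inl 0)
      · exact hx (Sum.inl 1)
      · exact hx (Sum.inl 2)
  rw [eq_top_iff]
  intro w _
  rw [eq_sum k p w]
  refine A.sum_mem fun i _ => ?_
  rw [Algebra.smul_def]
  refine A.mul_mem (hb _) ?_
  by_cases hi : i = i0 hpp.out.pos
  · rw [hi, basR_i0]; exact A.one_mem
  · exact hx (Sum.inr ⟨i, hi⟩)

theorem not_isFRational_section [IsAlgClosed k] {n : ℕ} (e : Idx p ≃ Fin n)
    (β : Fin (n + 1) → k) (hβ : β (e (Sum.inl 0)).succ ≠ 0) :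
    ¬ IsFRational p (Rp k p ⧸ hyperplaneIdeal (fun i => crds k p (e.symm i)) β) := by
  have h := not_isFRational_hyp k p (β 0) (β (e (Sum.inl 0)).succ) (β (e (Sum.inl 1)).succ)
    (β (e (Sum.inl 2)).succ)
    (fun i => if h : i ≠ i0 hpp.out.pos then β (e (Sum.inr ⟨i, h⟩)).succ else 0) hβ
  have key : hyperplaneIdeal (fun i => crds k p (e.symm i)) β = Ideal.span {hyp k p (β 0)
      (β (e (Sum.inl 0)).succ) (β (e (Sum.inl 1)).succ) (β (e (Sum.inl 2)).succ)
      (fun i => if h : i ≠ i0 hpp.out.pos then β (e (Sum.inr ⟨i, h⟩)).succ else 0)} := by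
    rw [hyperplaneIdeal, hyp]
    congr 2
    congr 1
    rw [← e.sum_comp]
    simp only [Equiv.symm_apply_apply]
    rw [Fintype.sum_sum_type, Fin.sum_univ_three]
    congr 1
    rw [Finset.sum_subtype (Finset.univ.erase (i0 hpp.out.pos))
      (p := fun i => i ≠ i0 hpp.out.pos) (by simp)]
    refine Finset.sum_congr rfl fun i _ => ?_
    rw [dif_pos i.2]
    rfl
  rw [key]
  exact h

end

/-- **F-rationality does not satisfy the second theorem of Bertini, in any characteristic.** For
every prime number `p` and every algebraically closed field `k` of characteristic `p` there are a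
`k`-algebra `R` all of whose local rings are F-rational and `x₁, …, x_N ∈ R` such that

* `R` is generated as a `k`-algebra by `x₁, …, x_N`, so that the morphism
  `(1 : x₁ : … : x_N) : Spec R → ℙᴺ` is a closed immersion of `Spec R` into the affine space
  `𝔸ᴺ ⊆ ℙᴺ`;
* there is an index `m ≥ 1` such that for every hyperplane `β` with `β_m ≠ 0` the pre-image
  `Spec R ⧸ (β₀ + β₁ x₁ + … + β_N x_N)` is not F-rational;
* hence no dense open set of hyperplanes has F-rational pre-images: for every nonzero polynomial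
  `G` in the coordinates of `β` there is `β` with `G(β) ≠ 0` whose pre-image is not F-rational. -/
theorem result (p : ℕ) [Fact p.Prime] (k : Type v) [Field k] [IsAlgClosed k] [CharP k p] :
    ∃ (R : Type v) (_ : CommRing R) (_ : Algebra k R) (N : ℕ) (x : Fin N → R),
      IsFRational p R ∧
      Algebra.adjoin k (Set.range x) = ⊤ ∧
      (∃ m : Fin N, ∀ β : Fin (N + 1) → k, β m.succ ≠ 0 →
        ¬ IsFRational p (R ⧸ hyperplaneIdeal x β)) ∧
      (∀ G : MvPolynomial (Fin (N + 1)) k, G ≠ 0 →
        ∃ β : Fin (N + 1) → k, MvPolynomial.eval β G ≠ 0 ∧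
          ¬ IsFRational p (R ⧸ hyperplaneIdeal x β)) := by
  classical
  let e : Idx p ≃ Fin (Fintype.card (Idx p)) := Fintype.equivFin _
  have key := fun β => not_isFRational_section k p e β
  refine ⟨Rp k p, inferInstance, inferInstance, _, fun i => crds k p (e.symm i),
    isFRational_Rp k p, ?_, ⟨e (Sum.inl 0), key⟩, ?_⟩
  · rw [← adjoin_crds k p]
    congr 1
    exact e.symm.surjective.range_comp (crds k p)
  · intro G hG
    have hG' : G * MvPolynomial.X (e (Sum.inl 0)).succ ≠ 0 :=
      mul_ne_zero hG (MvPolynomial.X_ne_zero _)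
    have hex : ∃ β, MvPolynomial.eval β (G * MvPolynomial.X (e (Sum.inl 0)).succ) ≠ 0 := by
      by_contra hcon
      push Not at hcon
      exact hG' (MvPolynomial.funext fun β => by rw [hcon β, map_zero])
    obtain ⟨β, hβ⟩ := hex
    rw [map_mul, MvPolynomial.eval_X] at hβ
    exact ⟨β, left_ne_zero_of_mul hβ, key β (right_ne_zero_of_mul hβ)⟩

end Pool.Agent.Results.MP_85340c_ag.BertiniFailsAllP
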